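import Mathlib

namespace Pool.Agent.Results.MP_5c57f5_nt.Five

/-- The sum `S_p`. -/
def S (p : ℕ) : ℚ :=
  ∑ k ∈ Finset.range p, ((Nat.choose (2 * k) k : ℚ) ^ 2 * (Nat.choose (3 * k) k : ℚ)) / (-8640) ^ k

/-- `a ≡ b (mod p^2)`: `a - b = p^2 c` with `c` rational of denominator prime to `p`. -/
def Cong (p : ℕ) (a b : ℚ) : Prop :=
  ∃ c : ℚ, a - b = (p : ℚ) ^ 2 * c ∧ Nat.Coprime c.den p

theorem result : ∃ p : ℕ, p.Prime ∧ 3 < p ∧ 3 ∣ p - 2 ∧ ¬ Cong p (S p) 0 := by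
  refine ⟨5, by norm_num, by norm_num, by norm_num, ?_⟩
  rintro ⟨c, h, hc⟩
  have e : c = S 5 / 25 := by
    push_cast at h
    linarith
  have hd : 5 ∣ (S 5 / 25).den := by decide +kernel
  rw [e] at hc
  have := Nat.Coprime.eq_one_of_dvd hc.symm hd
  omega

end Pool.Agent.Results.MP_5c57f5_nt.Five
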